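import Mathlib

open MeasureTheory ProbabilityTheory Set

namespace Pool.Agent.Results.MP_b215e8_pr.CircleHaar

/-- The set covered at time `t` when, for every `i`, a seed arrives at time `τ i` at the point `σ i`
and grows a closed ball whose radius increases at speed `v`. -/
def covered {S : Type*} [PseudoMetricSpace S] (v : ℝ) (τ : ℕ → ℝ) (σ : ℕ → S) (t : ℝ) : Set S :=
  ⋃ i ∈ {i : ℕ | τ i ≤ t}, Metric.closedBall (σ i) (v * (t - τ i))

/-- The cover time: the least `t ≥ 0` at which everything is covered. -/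
noncomputable def coverTime {S : Type*} [PseudoMetricSpace S] (v : ℝ) (τ : ℕ → ℝ) (σ : ℕ → S) :
    ℝ :=
  sInf {t : ℝ | 0 ≤ t ∧ covered v τ σ t = univ}

/-- The arrival times attached to a sequence of (waiting time, location) pairs: the `i`-th arrival
time is the sum of the first `i + 1` waiting times. -/
noncomputable def arrival {S : Type*} (ω : ℕ → ℝ × S) (i : ℕ) : ℝ :=
  ∑ j ∈ Finset.range (i + 1), (ω j).1

/-- The law of the seeds: the waiting times are i.i.d. exponential of rate `lam` (so that the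
arrival times form a rate-`lam` Poisson process) and the locations are i.i.d. of law `μ`,
independent of the waiting times. -/
noncomputable def seedLaw {S : Type*} [MeasurableSpace S] (lam : ℝ) (μ : Measure S) :
    Measure (ℕ → ℝ × S) :=
  Measure.infinitePi fun _ : ℕ => (expMeasure lam).prod μ

/-- The mean cover time when the seeds arrive at rate `lam`, with law `μ`, and the balls grow
at speed `v`. -/
noncomputable def meanCoverTime {S : Type*} [PseudoMetricSpace S] [MeasurableSpace S]
    (lam v : ℝ) (μ : Measure S) : ℝ :=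
  ∫ ω, coverTime v (arrival ω) (fun i => (ω i).2) ∂ seedLaw lam μ

/-- The uniform probability measure on the two antipodal points `0` and `L / 2` of the circle of
circumference `L`. -/
noncomputable def twoPoint (L : ℝ) : Measure (AddCircle L) :=
  (1 / 2 : ENNReal) • Measure.dirac ((0 : ℝ) : AddCircle L)
    + (1 / 2 : ENNReal) • Measure.dirac ((L / 2 : ℝ) : AddCircle L)

instance (L : ℝ) : IsProbabilityMeasure (twoPoint L) := by
  constructor
  simp [twoPoint, ENNReal.inv_two_add_inv_two]

section circle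

variable {L : ℝ} [hL : Fact (0 < L)]

lemma norm_coe_of_mem {a : ℝ} (h0 : 0 ≤ a) (h1 : a ≤ L) :
    ‖(a : AddCircle L)‖ = min a (L - a) := by
  have hL0 : 0 < L := hL.out
  rcases le_total a (L / 2) with h | h
  · rw [(AddCircle.norm_coe_eq_abs_iff L hL0.ne').2, abs_of_nonneg h0, min_eq_left (by linarith)]
    rw [abs_of_nonneg h0, abs_of_pos hL0]; exact h
  · have : (a : AddCircle L) = ((a - L : ℝ) : AddCircle L) := by
      rw [AddCircle.coe_sub, AddCircle.coe_period, sub_zero]
    rw [this, (AddCircle.norm_coe_eq_abs_iff L hL0.ne').2, abs_of_nonpos (by linarith),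
      min_eq_right (by linarith)]
    · ring
    · rw [abs_of_nonpos (by linarith), abs_of_pos hL0]; linarith

/-- Every point of the circle is represented by some `y` with `|y| ≤ L / 2`, `‖y‖ = |y|`. -/
lemma exists_rep (x : AddCircle L) : ∃ y : ℝ, |y| ≤ L / 2 ∧ (y : AddCircle L) = x ∧ ‖x‖ = |y| := by
  have hL0 : 0 < L := hL.out
  obtain ⟨b, hb, rfl⟩ := AddCircle.eq_coe_Ico x
  rcases le_total b (L / 2) with h | h
  · refine ⟨b, by rw [abs_of_nonneg hb.1]; exact h, rfl, ?_⟩
    rw [norm_coe_of_mem hb.1 hb.2.le, min_eq_left (by linarith), abs_of_nonneg hb.1]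
  · refine ⟨b - L, by rw [abs_of_nonpos (by linarith [hb.2])]; linarith, ?_, ?_⟩
    · rw [AddCircle.coe_sub, AddCircle.coe_period, sub_zero]
    · rw [norm_coe_of_mem hb.1 hb.2.le, min_eq_right (by linarith),
        abs_of_nonpos (by linarith [hb.2])]; ring

lemma norm_add_norm_sub_half (x : AddCircle L) :
    ‖x‖ + ‖x - ((L / 2 : ℝ) : AddCircle L)‖ = L / 2 := by
  have hL0 : 0 < L := hL.out
  obtain ⟨b, hb, rfl⟩ := AddCircle.eq_coe_Ico x
  rw [norm_coe_of_mem hb.1 hb.2.le, ← AddCircle.coe_sub]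
  rcases le_total b (L / 2) with h | h
  · rw [← norm_neg, ← AddCircle.coe_neg, norm_coe_of_mem (by linarith) (by linarith [hb.1]),
      min_eq_left (by linarith), min_eq_left (by linarith [hb.1])]
    ring
  · rw [norm_coe_of_mem (by linarith) (by linarith [hb.2]),
      min_eq_right (by linarith), min_eq_left (by linarith [hb.2])]
    ring

lemma norm_le_half (x : AddCircle L) : ‖x‖ ≤ L / 2 := by
  have hL0 : 0 < L := hL.out
  have := AddCircle.norm_le_half_period L (x := x) hL0.ne'
  rwa [abs_of_pos hL0] at this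

/-- Geometric lower bound: two balls with radii `r₀ ≥ r₁`, `r₀ < L / 2`,
`r₀ + r₁ < L - d` do not cover the circle. -/
lemma exists_uncovered (a b : AddCircle L) {r₀ r₁ : ℝ} (h01 : r₁ ≤ r₀) (h0 : r₀ < L / 2)
    (hsum : r₀ + r₁ < L - ‖b - a‖) :
    ∃ z : AddCircle L, r₀ < dist z a ∧ r₁ < dist z b := by
  have hL0 : 0 < L := hL.out
  rcases lt_or_ge r₀ 0 with hneg | hnn
  · exact ⟨a, by simpa using hneg, lt_of_lt_of_le (lt_of_le_of_lt h01 hneg) dist_nonneg⟩
  obtain ⟨y, hy1, hy2, hy3⟩ := exists_rep (b - a)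
  rw [hy3] at hsum
  -- choose `x` with `r₀ < x ≤ L / 2` and `r₁ < L - |y| - x`
  obtain ⟨x, hx0, hx1, hx2⟩ : ∃ x : ℝ, r₀ < x ∧ x ≤ L / 2 ∧ x < L - |y| - r₁ := by
    refine ⟨min (L / 2) ((r₀ + (L - |y| - r₁)) / 2), lt_min h0 (by linarith), min_le_left _ _, ?_⟩
    refine lt_of_le_of_lt (min_le_right _ _) (by linarith)
  have hxpos : 0 < x := lt_of_le_of_lt hnn hx0
  have key : ∀ z : ℝ, |z| = x + |y| → r₁ < ‖(z : AddCircle L)‖ := by
    intro z hz
    have hz' : ‖(z : AddCircle L)‖ = ‖((|z| : ℝ) : AddCircle L)‖ := by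
      rcases le_total 0 z with h | h
      · rw [abs_of_nonneg h]
      · rw [abs_of_nonpos h, AddCircle.coe_neg, norm_neg]
    rw [hz', hz, norm_coe_of_mem (by positivity) (by linarith)]
    exact lt_min (by linarith [abs_nonneg y]) (by linarith)
  have hxn : ‖(x : AddCircle L)‖ = x := by
    rw [norm_coe_of_mem hxpos.le (by linarith), min_eq_left (by linarith)]
  rcases le_total 0 y with hy | hy
  · refine ⟨a - (x : AddCircle L), ?_, ?_⟩
    · rw [dist_eq_norm]; simpa [hxn] using hx0
    · rw [dist_eq_norm]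
      have : a - (x : AddCircle L) - b = ((-x - y : ℝ) : AddCircle L) := by
        rw [AddCircle.coe_sub, hy2, AddCircle.coe_neg]; abel
      rw [this]
      apply key
      rw [abs_of_nonpos (by linarith), abs_of_nonneg hy]; ring
  · refine ⟨a + (x : AddCircle L), ?_, ?_⟩
    · rw [dist_eq_norm]; simpa [hxn] using hx0
    · rw [dist_eq_norm]
      have : a + (x : AddCircle L) - b = ((x - y : ℝ) : AddCircle L) := by
        rw [AddCircle.coe_sub, hy2]; abel
      rw [this]
      apply key
      rw [abs_of_nonneg (by linarith), abs_of_nonpos hy]; ring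

/-! ### Deterministic bounds for the cover time -/

lemma mem_covered {S : Type*} [PseudoMetricSpace S] {v : ℝ} {τ : ℕ → ℝ} {σ : ℕ → S} {t : ℝ}
    {z : S} : z ∈ covered v τ σ t ↔ ∃ i, τ i ≤ t ∧ dist z (σ i) ≤ v * (t - τ i) := by
  simp [covered]

lemma bddBelow_cover {S : Type*} [PseudoMetricSpace S] (v : ℝ) (τ : ℕ → ℝ) (σ : ℕ → S) :
    BddBelow {t : ℝ | 0 ≤ t ∧ covered v τ σ t = univ} := ⟨0, fun _ ht => ht.1⟩

lemma covered_full {v : ℝ} (hv : 0 < v) {τ : ℕ → ℝ} (σ : ℕ → AddCircle L) {t : ℝ}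
    (ht : τ 0 + L / (2 * v) ≤ t) : covered v τ σ t = univ := by
  have hL0 : 0 < L := hL.out
  have hpos : 0 < L / (2 * v) := by positivity
  refine eq_univ_of_forall fun z => mem_covered.2 ⟨0, by linarith, ?_⟩
  rw [dist_eq_norm]
  refine (norm_le_half _).trans ?_
  have h1 : L / (2 * v) ≤ t - τ 0 := by linarith
  calc L / 2 = v * (L / (2 * v)) := by field_simp
    _ ≤ v * (t - τ 0) := mul_le_mul_of_nonneg_left h1 hv.le

lemma cover_nonempty {v : ℝ} (hv : 0 < v) {τ : ℕ → ℝ} (σ : ℕ → AddCircle L) (h0 : 0 ≤ τ 0) :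
    {t : ℝ | 0 ≤ t ∧ covered v τ σ t = univ}.Nonempty := by
  have hL0 : 0 < L := hL.out
  exact ⟨τ 0 + L / (2 * v), by positivity, covered_full hv σ le_rfl⟩

lemma coverTime_le {v : ℝ} (hv : 0 < v) {τ : ℕ → ℝ} (σ : ℕ → AddCircle L) (h0 : 0 ≤ τ 0) :
    coverTime v τ σ ≤ τ 0 + L / (2 * v) := by
  have hL0 : 0 < L := hL.out
  exact csInf_le (bddBelow_cover v τ σ) ⟨by positivity, covered_full hv σ le_rfl⟩

lemma coverTime_le_antipodal {v : ℝ} (hv : 0 < v) {τ : ℕ → ℝ} (σ : ℕ → AddCircle L)
    (h0 : 0 ≤ τ 0) (h01 : τ 0 ≤ τ 1) (hσ : σ 1 = σ 0 + ((L / 2 : ℝ) : AddCircle L)) :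
    coverTime v τ σ ≤ τ 0 + L / (2 * v) - max (L / (2 * v) - (τ 1 - τ 0)) 0 / 2 := by
  have hL0 : 0 < L := hL.out
  rcases le_total (L / (2 * v) - (τ 1 - τ 0)) 0 with h | h
  · rw [max_eq_right h]
    simpa using coverTime_le hv σ h0
  · rw [max_eq_left h]
    refine csInf_le (bddBelow_cover v τ σ) ⟨by have : 0 < L / (2 * v) := by positivity
                                               linarith, ?_⟩
    set t := τ 0 + L / (2 * v) - (L / (2 * v) - (τ 1 - τ 0)) / 2 with ht
    refine eq_univ_of_forall fun z => mem_covered.2 ?_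
    have hz := norm_add_norm_sub_half (z - σ 0)
    have hd : z - σ 0 - ((L / 2 : ℝ) : AddCircle L) = z - σ 1 := by rw [hσ]; abel
    rw [hd] at hz
    have hsum : v * (t - τ 0) + v * (t - τ 1) = L / 2 := by
      rw [ht]; field_simp; ring
    by_cases hc : ‖z - σ 0‖ ≤ v * (t - τ 0)
    · refine ⟨0, ?_, by rwa [dist_eq_norm]⟩
      rw [ht]; have : 0 < L / (2 * v) := by positivity
      linarith
    · refine ⟨1, ?_, by rw [dist_eq_norm]; push Not at hc; linarith⟩
      rw [ht]; linarith

lemma arrival_le_coverTime {v : ℝ} (hv : 0 < v) {τ : ℕ → ℝ} (σ : ℕ → AddCircle L)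
    (h0 : 0 ≤ τ 0) (hmono : Monotone τ) : τ 0 ≤ coverTime v τ σ := by
  refine le_csInf (cover_nonempty hv σ h0) ?_
  rintro t ⟨_, ht⟩
  have : (0 : AddCircle L) ∈ covered v τ σ t := by rw [ht]; exact mem_univ _
  obtain ⟨i, hi, _⟩ := mem_covered.1 this
  exact (hmono (Nat.zero_le i)).trans hi

lemma le_coverTime {v : ℝ} (hv : 0 < v) {τ : ℕ → ℝ} (σ : ℕ → AddCircle L)
    (h0 : 0 ≤ τ 0) (hmono : Monotone τ) (h2 : L / (2 * v) < τ 2 - τ 0) :
    τ 0 + L / (2 * v) - max (‖σ 1 - σ 0‖ / v - (τ 1 - τ 0)) 0 / 2 ≤ coverTime v τ σ := by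
  have hL0 : 0 < L := hL.out
  refine le_csInf (cover_nonempty hv σ h0) ?_
  rintro t ⟨_, ht⟩
  by_contra hlt
  push Not at hlt
  have hmax0 : 0 ≤ max (‖σ 1 - σ 0‖ / v - (τ 1 - τ 0)) 0 := le_max_right _ _
  have hmax1 : ‖σ 1 - σ 0‖ / v - (τ 1 - τ 0) ≤ max (‖σ 1 - σ 0‖ / v - (τ 1 - τ 0)) 0 :=
    le_max_left _ _
  have h01 : τ 0 ≤ τ 1 := hmono (by norm_num)
  have hA : v * (t - τ 0) < L / 2 := by
    have : t - τ 0 < L / (2 * v) := by linarith
    calc v * (t - τ 0) < v * (L / (2 * v)) := by gcongr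
      _ = L / 2 := by field_simp
  have hB : v * (t - τ 0) + v * (t - τ 1) < L - ‖σ 1 - σ 0‖ := by
    have : (t - τ 0) + (t - τ 1) < L / v - ‖σ 1 - σ 0‖ / v := by
      have : L / v = L / (2 * v) + L / (2 * v) := by field_simp; ring
      linarith
    calc v * (t - τ 0) + v * (t - τ 1) = v * ((t - τ 0) + (t - τ 1)) := by ring
      _ < v * (L / v - ‖σ 1 - σ 0‖ / v) := by gcongr
      _ = L - ‖σ 1 - σ 0‖ := by field_simp
  obtain ⟨z, hz0, hz1⟩ := exists_uncovered (σ 0) (σ 1) (r₀ := v * (t - τ 0))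
    (r₁ := v * (t - τ 1)) (by gcongr) hA hB
  have : z ∈ covered v τ σ t := by rw [ht]; exact mem_univ _
  obtain ⟨i, hi, hi'⟩ := mem_covered.1 this
  rcases i with _ | _ | i
  · exact absurd hi' (not_le.2 hz0)
  · exact absurd hi' (not_le.2 hz1)
  · have : τ 2 ≤ τ (i + 1 + 1) := hmono (by omega)
    linarith

end circle

/-! ### The exponential law -/

section expLaw

variable {lam : ℝ}

lemma expMeasure_eq (lam : ℝ) :
    expMeasure lam = (volume : Measure ℝ).withDensity (exponentialPDF lam) := rfl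

lemma measurable_exponentialPDF (lam : ℝ) : Measurable (exponentialPDF lam) :=
  (measurable_exponentialPDFReal lam).ennreal_ofReal

lemma exponentialPDF_toReal (hlam : 0 < lam) (x : ℝ) :
    (exponentialPDF lam x).toReal = if 0 ≤ x then lam * Real.exp (-(lam * x)) else 0 := by
  rw [exponentialPDF_eq, ENNReal.toReal_ofReal]
  split_ifs
  · positivity
  · exact le_rfl

lemma integral_exp (hlam : 0 < lam) (f : ℝ → ℝ) :
    ∫ x, f x ∂expMeasure lam = ∫ x in Ici (0 : ℝ), (lam * Real.exp (-(lam * x))) * f x := by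
  rw [expMeasure_eq, integral_withDensity_eq_integral_toReal_smul (measurable_exponentialPDF lam)
    (ae_of_all _ fun x => by simp [exponentialPDF]), ← integral_indicator measurableSet_Ici]
  congr 1
  ext x
  rw [exponentialPDF_toReal hlam]
  by_cases h : 0 ≤ x <;> simp [h, indicator, smul_eq_mul]

lemma integrable_exp_iff (hlam : 0 < lam) (f : ℝ → ℝ) :
    Integrable f (expMeasure lam) ↔
      IntegrableOn (fun x => (lam * Real.exp (-(lam * x))) * f x) (Ici (0 : ℝ)) := by
  rw [expMeasure_eq, integrable_withDensity_iff_integrable_smul' (measurable_exponentialPDF lam)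
    (ae_of_all _ fun x => by simp [exponentialPDF]), ← integrable_indicator_iff measurableSet_Ici]
  have : (fun x => (exponentialPDF lam x).toReal • f x) =
      (Ici (0 : ℝ)).indicator fun x => (lam * Real.exp (-(lam * x))) * f x := by
    ext x
    rw [exponentialPDF_toReal hlam]
    by_cases h : 0 ≤ x <;> simp [h, indicator, smul_eq_mul]
  rw [this]

lemma integrable_id_exp (hlam : 0 < lam) : Integrable (fun x : ℝ => x) (expMeasure lam) := by
  rw [integrable_exp_iff hlam, integrableOn_Ici_iff_integrableOn_Ioi]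
  have h := Real.GammaIntegral_convergent (s := 2) (by norm_num)
  have h2 := (integrableOn_Ioi_comp_mul_left_iff
    (fun x : ℝ => Real.exp (-x) * x ^ ((2 : ℝ) - 1)) 0 hlam).2 (by simpa using h)
  refine h2.congr_fun ?_ measurableSet_Ioi
  intro x hx
  have : (2 : ℝ) - 1 = 1 := by norm_num
  simp only [this, Real.rpow_one]
  ring

lemma ae_nonneg_exp (lam : ℝ) : ∀ᵐ x ∂expMeasure lam, 0 ≤ x := by
  rw [expMeasure_eq, ae_withDensity_iff (measurable_exponentialPDF lam)]
  refine ae_of_all _ fun x hx => ?_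
  by_contra h
  exact hx (exponentialPDF_of_neg (not_le.1 h))

lemma integral_trunc (hlam : 0 < lam) {a : ℝ} (ha : 0 ≤ a) :
    ∫ x, max (a - x) 0 ∂expMeasure lam
      = ∫ x in (0 : ℝ)..a, (lam * Real.exp (-(lam * x))) * (a - x) := by
  rw [integral_exp hlam, intervalIntegral.integral_of_le ha, integral_Ici_eq_integral_Ioi]
  rw [setIntegral_eq_of_subset_of_forall_sdiff_eq_zero measurableSet_Ioi
    (s := Ioc (0 : ℝ) a) (fun x hx => hx.1)]
  · refine setIntegral_congr_fun measurableSet_Ioc fun x hx => ?_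
    rw [max_eq_left (by linarith [hx.2])]
  · rintro x ⟨hx1, hx2⟩
    have h0 : (0 : ℝ) < x := hx1
    have : a - x ≤ 0 := by
      by_contra h
      exact hx2 ⟨h0, by linarith⟩
    rw [max_eq_right this, mul_zero]

lemma trunc_le (hlam : 0 < lam) {a : ℝ} (ha : 0 ≤ a) :
    ∫ x, max (a - x) 0 ∂expMeasure lam ≤ lam * a ^ 2 / 2 := by
  rw [integral_trunc hlam ha]
  have h : ∫ x in (0 : ℝ)..a, lam * (a - x) = lam * a ^ 2 / 2 := by
    rw [intervalIntegral.integral_const_mul, intervalIntegral.integral_sub (by simp) (by simp)]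
    simp; ring
  rw [← h]
  refine intervalIntegral.integral_mono_on ha ?_ ?_ fun x hx => ?_
  · exact (Continuous.intervalIntegrable (by fun_prop) _ _)
  · exact (Continuous.intervalIntegrable (by fun_prop) _ _)
  · have : Real.exp (-(lam * x)) ≤ 1 := by
      rw [Real.exp_le_one_iff]; nlinarith [hx.1]
    have h2 : 0 ≤ a - x := by linarith [hx.2]
    calc lam * Real.exp (-(lam * x)) * (a - x) ≤ lam * 1 * (a - x) := by gcongr
      _ = lam * (a - x) := by ring

lemma le_trunc (hlam : 0 < lam) {a : ℝ} (ha : 0 ≤ a) :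
    (1 - lam * a) * (lam * a ^ 2 / 2) ≤ ∫ x, max (a - x) 0 ∂expMeasure lam := by
  rw [integral_trunc hlam ha]
  have h : ∫ x in (0 : ℝ)..a, (lam * (1 - lam * a)) * (a - x)
      = (1 - lam * a) * (lam * a ^ 2 / 2) := by
    rw [intervalIntegral.integral_const_mul, intervalIntegral.integral_sub (by simp) (by simp)]
    simp; ring
  rw [← h]
  refine intervalIntegral.integral_mono_on ha ?_ ?_ fun x hx => ?_
  · exact (Continuous.intervalIntegrable (by fun_prop) _ _)
  · exact (Continuous.intervalIntegrable (by fun_prop) _ _)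
  · have : 1 - lam * a ≤ Real.exp (-(lam * x)) := by
      have h1 := Real.add_one_le_exp (-(lam * x))
      nlinarith [hx.2]
    have h2 : 0 ≤ a - x := by linarith [hx.2]
    gcongr

lemma measureReal_Iic_exp (hlam : 0 < lam) {a : ℝ} (ha : 0 ≤ a) :
    (expMeasure lam).real (Iic a) = 1 - Real.exp (-(lam * a)) := by
  have := isProbabilityMeasure_expMeasure hlam
  have h := cdf_expMeasure_eq hlam a
  rw [cdf_eq_real] at h
  rw [h, if_pos ha]

lemma measureReal_Iic_exp_le (hlam : 0 < lam) {a : ℝ} (ha : 0 ≤ a) :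
    (expMeasure lam).real (Iic a) ≤ lam * a := by
  rw [measureReal_Iic_exp hlam ha]
  have h1 := Real.add_one_le_exp (-(lam * a))
  linarith

lemma measure_Iic_exp_lt_one (hlam : 0 < lam) (a : ℝ) : expMeasure lam (Iic a) < 1 := by
  have := isProbabilityMeasure_expMeasure hlam
  have h : (expMeasure lam).real (Iic (max a 0)) < 1 := by
    rw [measureReal_Iic_exp hlam (le_max_right _ _)]
    have := Real.exp_pos (-(lam * max a 0))
    linarith
  refine (measure_mono (Iic_subset_Iic.2 (le_max_left a 0))).trans_lt ?_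
  rw [measureReal_def] at h
  rw [← ENNReal.toReal_one] at h
  exact (ENNReal.toReal_lt_toReal (measure_ne_top _ _) ENNReal.one_ne_top).1 h

end expLaw


/-! ### Almost sure properties of the seed sequence -/

section seeds

variable {S : Type*}

lemma arrival_mono {ω : ℕ → ℝ × S} (h : ∀ i, 0 ≤ (ω i).1) : Monotone (arrival ω) := by
  refine monotone_nat_of_le_succ fun n => ?_
  unfold arrival
  rw [Finset.sum_range_succ _ (n + 1)]
  linarith [h (n + 1)]

lemma gap_le_arrival {ω : ℕ → ℝ × S} (h : ∀ i, 0 ≤ (ω i).1) (i : ℕ) :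
    (ω i).1 ≤ arrival ω i :=
  Finset.single_le_sum (f := fun j => (ω j).1) (fun j _ => h j) (Finset.self_mem_range_succ i)

variable [MeasurableSpace S]

lemma ae_gap_nonneg {lam : ℝ} (hlam : 0 < lam) (μ : Measure S) [IsProbabilityMeasure μ] :
    ∀ᵐ ω ∂seedLaw lam μ, ∀ i, 0 ≤ (ω i).1 := by
  have := isProbabilityMeasure_expMeasure hlam
  rw [ae_all_iff]
  intro i
  have h : ∀ᵐ x ∂((expMeasure lam).prod μ), 0 ≤ x.1 := by
    exact Measure.quasiMeasurePreserving_fst.ae (ae_nonneg_exp lam)
  exact (measurePreserving_eval_infinitePi (fun _ : ℕ => (expMeasure lam).prod μ)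
    i).quasiMeasurePreserving.ae h

lemma ae_arrival_unbounded {lam : ℝ} (hlam : 0 < lam) (μ : Measure S) [IsProbabilityMeasure μ] :
    ∀ᵐ ω ∂seedLaw lam μ, ∀ q : ℕ, ∃ i, (q : ℝ) < arrival ω i := by
  have := isProbabilityMeasure_expMeasure hlam
  rw [ae_all_iff]
  intro q
  have hgap := ae_gap_nonneg hlam μ
  -- it suffices that some gap exceeds `q`
  have key : ∀ᵐ ω ∂seedLaw lam μ, ∃ i, (q : ℝ) < (ω i).1 := by
    rw [ae_iff]
    have hsub : ∀ n : ℕ, {ω : ℕ → ℝ × S | ¬ ∃ i, (q : ℝ) < (ω i).1} ⊆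
        (Finset.range n : Set ℕ).pi fun _ => Iic (q : ℝ) ×ˢ (univ : Set S) := by
      intro n ω hω i _
      simp only [mem_ofPred_eq, not_exists, not_lt] at hω
      exact ⟨hω i, mem_univ _⟩
    have hbound : ∀ n : ℕ, seedLaw lam μ {ω : ℕ → ℝ × S | ¬ ∃ i, (q : ℝ) < (ω i).1} ≤
        (expMeasure lam (Iic (q : ℝ))) ^ n := by
      intro n
      refine (measure_mono (hsub n)).trans ?_
      unfold seedLaw
      rw [Measure.infinitePi_pi _ (fun i _ => (measurableSet_Iic.prod MeasurableSet.univ))]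
      simp
    have hlim := ENNReal.tendsto_pow_atTop_nhds_zero_of_lt_one (measure_Iic_exp_lt_one hlam q)
    exact le_antisymm (ge_of_tendsto' hlim hbound) zero_le
  filter_upwards [hgap, key] with ω h1 ⟨i, hi⟩
  exact ⟨i, hi.trans_le (gap_le_arrival h1 i)⟩

lemma measurable_arrival (i : ℕ) : Measurable fun ω : ℕ → ℝ × S => arrival ω i := by
  unfold arrival
  fun_prop

end seeds

/-! ### Measurability of the cover time -/

section measurability

lemma covered_mono {S : Type*} [PseudoMetricSpace S] {v : ℝ} (hv : 0 < v) (τ : ℕ → ℝ)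
    (σ : ℕ → S) {s t : ℝ} (hst : s ≤ t) : covered v τ σ s ⊆ covered v τ σ t := by
  intro z hz
  obtain ⟨i, hi, hi'⟩ := mem_covered.1 hz
  refine mem_covered.2 ⟨i, hi.trans hst, hi'.trans ?_⟩
  gcongr

lemma isClosed_covered {S : Type*} [PseudoMetricSpace S] {v : ℝ} {τ : ℕ → ℝ}
    {σ : ℕ → S} {t : ℝ} (hfin : {i : ℕ | τ i ≤ t}.Finite) : IsClosed (covered v τ σ t) :=
  hfin.isClosed_biUnion fun _ _ => Metric.isClosed_closedBall

lemma covered_eq_univ_iff {S : Type*} [PseudoMetricSpace S] {v : ℝ} {τ : ℕ → ℝ}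
    {σ : ℕ → S} {t : ℝ} (hfin : {i : ℕ | τ i ≤ t}.Finite) {u : ℕ → S} (hu : DenseRange u) :
    covered v τ σ t = univ ↔ ∀ n, u n ∈ covered v τ σ t := by
  constructor
  · intro h n; rw [h]; exact mem_univ _
  · intro h
    have h1 : range u ⊆ covered v τ σ t := by rintro _ ⟨n, rfl⟩; exact h n
    have h2 := (isClosed_covered (v := v) (σ := σ) hfin).closure_subset_iff.2 h1
    rw [hu.closure_range] at h2
    exact univ_subset_iff.1 h2

variable {L : ℝ} [hL : Fact (0 < L)]

/-- A measurable version of the cover time, which only looks at a dense sequence of points. -/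
noncomputable def denseCoverTime (v : ℝ) (τ : ℕ → ℝ) (σ : ℕ → AddCircle L) : ℝ :=
  sInf {t : ℝ | 0 ≤ t ∧ ∀ n, TopologicalSpace.denseSeq (AddCircle L) n ∈ covered v τ σ t}

lemma denseCoverTime_lt_iff {v : ℝ} (hv : 0 < v) (τ : ℕ → ℝ) (σ : ℕ → AddCircle L) (t : ℝ) :
    denseCoverTime v τ σ < t ↔ ∃ q : ℚ, 0 ≤ (q : ℝ) ∧ (q : ℝ) < t ∧
      ∀ n, TopologicalSpace.denseSeq (AddCircle L) n ∈ covered v τ σ q := by
  have hbdd : BddBelow {t : ℝ | 0 ≤ t ∧
      ∀ n, TopologicalSpace.denseSeq (AddCircle L) n ∈ covered v τ σ t} := ⟨0, fun _ h => h.1⟩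
  have hne : {t : ℝ | 0 ≤ t ∧
      ∀ n, TopologicalSpace.denseSeq (AddCircle L) n ∈ covered v τ σ t}.Nonempty := by
    refine ⟨max 0 (τ 0 + L / (2 * v)), le_max_left _ _, fun n => ?_⟩
    rw [covered_full hv σ (le_max_right _ _)]
    exact mem_univ _
  constructor
  · intro h
    obtain ⟨s, ⟨hs0, hs⟩, hst⟩ := (csInf_lt_iff hbdd hne).1 h
    obtain ⟨q, hq1, hq2⟩ := exists_rat_btwn hst
    exact ⟨q, hs0.trans hq1.le, hq2, fun n => covered_mono hv τ σ hq1.le (hs n)⟩
  · rintro ⟨q, hq0, hq1, hq⟩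
    exact (csInf_le hbdd ⟨hq0, hq⟩).trans_lt hq1

lemma measurableSet_mem_covered (v t : ℝ) (z : AddCircle L) :
    MeasurableSet {ω : ℕ → ℝ × AddCircle L |
      z ∈ covered v (arrival ω) (fun i => (ω i).2) t} := by
  have : {ω : ℕ → ℝ × AddCircle L | z ∈ covered v (arrival ω) (fun i => (ω i).2) t}
      = ⋃ i, ({ω | arrival ω i ≤ t} ∩ {ω | dist z (ω i).2 ≤ v * (t - arrival ω i)}) := by
    ext ω
    simp [mem_covered]
  rw [this]
  refine MeasurableSet.iUnion fun i => ?_
  have h1 := measurable_arrival (S := AddCircle L) i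
  refine (measurableSet_le h1 measurable_const).inter (measurableSet_le ?_ ?_)
  · exact measurable_const.dist (by fun_prop)
  · fun_prop

lemma measurable_denseCoverTime {v : ℝ} (hv : 0 < v) :
    Measurable fun ω : ℕ → ℝ × AddCircle L =>
      denseCoverTime v (arrival ω) (fun i => (ω i).2) := by
  refine measurable_of_Iio fun t => ?_
  have : (fun ω : ℕ → ℝ × AddCircle L =>
      denseCoverTime v (arrival ω) (fun i => (ω i).2)) ⁻¹' Iio t
      = ⋃ q : ℚ, ⋃ _ : 0 ≤ (q : ℝ) ∧ (q : ℝ) < t, ⋂ n,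
        {ω | TopologicalSpace.denseSeq (AddCircle L) n ∈
          covered v (arrival ω) (fun i => (ω i).2) q} := by
    ext ω
    simp only [mem_preimage, mem_Iio, denseCoverTime_lt_iff hv, mem_iUnion, mem_iInter,
      mem_ofPred_eq, exists_prop, and_assoc]
  rw [this]
  refine MeasurableSet.iUnion fun q => MeasurableSet.iUnion fun _ => MeasurableSet.iInter fun n => ?_
  exact measurableSet_mem_covered v q _

lemma ae_coverTime_eq {lam v : ℝ} (hlam : 0 < lam) (μ : Measure (AddCircle L))
    [IsProbabilityMeasure μ] :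
    (fun ω => coverTime v (arrival ω) (fun i => (ω i).2)) =ᵐ[seedLaw lam μ]
      fun ω => denseCoverTime v (arrival ω) (fun i => (ω i).2) := by
  filter_upwards [ae_gap_nonneg hlam μ, ae_arrival_unbounded hlam μ] with ω h1 h2
  have hfin : ∀ t : ℝ, {i : ℕ | arrival ω i ≤ t}.Finite := by
    intro t
    obtain ⟨q, hq⟩ := exists_nat_ge t
    obtain ⟨i, hi⟩ := h2 q
    refine (finite_lt_nat i).subset fun j hj => ?_
    by_contra hij
    have := arrival_mono h1 (not_lt.1 hij)
    have hj' : arrival ω j ≤ t := hj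
    linarith
  unfold coverTime denseCoverTime
  congr 1
  ext t
  simp only [mem_ofPred_eq]
  rw [covered_eq_univ_iff (hfin t) (TopologicalSpace.denseRange_denseSeq (AddCircle L))]

lemma aemeasurable_coverTime {lam v : ℝ} (hlam : 0 < lam) (hv : 0 < v)
    (μ : Measure (AddCircle L)) [IsProbabilityMeasure μ] :
    AEMeasurable (fun ω => coverTime v (arrival ω) (fun i => (ω i).2)) (seedLaw lam μ) :=
  ⟨_, measurable_denseCoverTime hv, ae_coverTime_eq hlam μ⟩

end measurability

/-! ### Integrals over the seed law -/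

section integrals

lemma integral_gap {S : Type*} [MeasurableSpace S] {lam : ℝ} (hlam : 0 < lam) (μ : Measure S)
    [IsProbabilityMeasure μ] (i : ℕ) :
    Integrable (fun ω : ℕ → ℝ × S => (ω i).1) (seedLaw lam μ) ∧
    ∫ ω, (ω i).1 ∂seedLaw lam μ = ∫ x, x ∂expMeasure lam := by
  have := isProbabilityMeasure_expMeasure hlam
  have h1 := measurePreserving_eval_infinitePi (fun _ : ℕ => (expMeasure lam).prod μ) i
  have h2 : MeasurePreserving Prod.fst ((expMeasure lam).prod μ) (expMeasure lam) :=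
    measurePreserving_fst
  have h3 := h2.comp h1
  constructor
  · exact h3.integrable_comp_of_integrable (integrable_id_exp hlam)
  · have h4 := h3.map_eq
    calc ∫ ω, (ω i).1 ∂seedLaw lam μ
        = ∫ x, x ∂(Measure.map (Prod.fst ∘ Function.eval i) (seedLaw lam μ)) := by
          rw [integral_map h3.measurable.aemeasurable (by fun_prop)]
          rfl
      _ = ∫ x, x ∂expMeasure lam := by
          unfold seedLaw
          rw [h4]

lemma integral_pair {S : Type*} [MeasurableSpace S] {lam : ℝ} (hlam : 0 < lam) (μ : Measure S)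
    [IsProbabilityMeasure μ] {i j : ℕ} (hij : i ≠ j) {f : (ℝ × S) × (ℝ × S) → ℝ}
    (hf : Measurable f) :
    ∫ ω, f (ω i, ω j) ∂seedLaw lam μ
      = ∫ z, f z ∂(((expMeasure lam).prod μ).prod ((expMeasure lam).prod μ)) := by
  have := isProbabilityMeasure_expMeasure hlam
  have h := Measure.infinitePi_map_eval_prod (P := fun _ : ℕ => (expMeasure lam).prod μ) hij
  rw [← h, integral_map (by fun_prop) hf.aestronglyMeasurable]
  rfl

variable {L : ℝ} [hL : Fact (0 < L)]

lemma integral_norm_sq (x : AddCircle L) :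
    ∫ s, ‖s - x‖ ^ 2 ∂(AddCircle.haarAddCircle (T := L)) = L ^ 2 / 12 := by
  have hL0 : 0 < L := hL.out
  rw [integral_sub_right_eq_self (fun s : AddCircle L => ‖s‖ ^ 2) x,
    AddCircle.integral_haarAddCircle, ← AddCircle.intervalIntegral_preimage L (-(L / 2))]
  have h : ∫ a in (-(L / 2))..(-(L / 2) + L), ‖(a : AddCircle L)‖ ^ 2
      = ∫ a in (-(L / 2))..(-(L / 2) + L), a ^ 2 := by
    refine intervalIntegral.integral_congr fun a ha => ?_
    rw [uIcc_of_le (by linarith)] at ha
    have : |a| ≤ L / 2 := by rw [abs_le]; constructor <;> linarith [ha.1, ha.2]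
    rw [(AddCircle.norm_coe_eq_abs_iff L hL0.ne').2 (by rwa [abs_of_pos hL0]), sq_abs]
  rw [h, integral_pow]
  simp only [smul_eq_mul]
  field_simp
  ring

lemma trunc_bounds {a x : ℝ} (hx : 0 ≤ x) : 0 ≤ max (a - x) 0 ∧ max (a - x) 0 ≤ |a| := by
  refine ⟨le_max_right _ _, max_le ?_ (abs_nonneg a)⟩
  linarith [le_abs_self a]

/-- Under the Haar measure, the mean gain from the second seed is at most
`lam * L ^ 2 / (24 * v ^ 2)`. -/
lemma haar_gain_le {lam v : ℝ} (hlam : 0 < lam) (hv : 0 < v) :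
    ∫ ω, max (‖(ω 1).2 - (ω 0).2‖ / v - (ω 1).1) 0
      ∂seedLaw lam (AddCircle.haarAddCircle (T := L)) ≤ lam * L ^ 2 / (24 * v ^ 2) := by
  have hL0 : 0 < L := hL.out
  have := isProbabilityMeasure_expMeasure hlam
  set m := AddCircle.haarAddCircle (T := L) with hm
  set ν := (expMeasure lam).prod m with hν
  have hmeas : Measurable fun z : (ℝ × AddCircle L) × (ℝ × AddCircle L) =>
      max (‖z.2.2 - z.1.2‖ / v - z.2.1) 0 := by fun_prop
  rw [integral_pair hlam m (i := 0) (j := 1) (by norm_num)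
    (f := fun z => max (‖z.2.2 - z.1.2‖ / v - z.2.1) 0) hmeas]
  -- boundedness, hence integrability
  have hnn : ∀ᵐ y ∂ν, 0 ≤ y.1 := Measure.quasiMeasurePreserving_fst.ae (ae_nonneg_exp lam)
  have hbd : ∀ᵐ z ∂(ν.prod ν), ‖max (‖z.2.2 - z.1.2‖ / v - z.2.1) 0‖ ≤ L / (2 * v) := by
    have h2 : ∀ᵐ z ∂(ν.prod ν), 0 ≤ z.2.1 := Measure.quasiMeasurePreserving_snd.ae hnn
    filter_upwards [h2] with z hz
    obtain ⟨h3, h4⟩ := trunc_bounds (a := ‖z.2.2 - z.1.2‖ / v) hz
    rw [Real.norm_of_nonneg h3]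
    refine h4.trans ?_
    rw [abs_of_nonneg (by positivity), div_le_div_iff₀ hv (by positivity)]
    nlinarith [norm_le_half (z.2.2 - z.1.2), norm_nonneg (z.2.2 - z.1.2)]
  have hint : Integrable (fun z : (ℝ × AddCircle L) × (ℝ × AddCircle L) =>
      max (‖z.2.2 - z.1.2‖ / v - z.2.1) 0) (ν.prod ν) :=
    Integrable.of_bound hmeas.aestronglyMeasurable _ hbd
  rw [integral_prod _ hint]
  have hinner : ∀ x : ℝ × AddCircle L,
      ∫ y, max (‖y.2 - x.2‖ / v - y.1) 0 ∂ν ≤ lam * L ^ 2 / (24 * v ^ 2) := by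
    intro x
    have hmx : Measurable fun y : ℝ × AddCircle L => max (‖y.2 - x.2‖ / v - y.1) 0 := by
      fun_prop
    have hintx : Integrable (fun y : ℝ × AddCircle L => max (‖y.2 - x.2‖ / v - y.1) 0) ν := by
      refine Integrable.of_bound hmx.aestronglyMeasurable (L / (2 * v)) ?_
      filter_upwards [hnn] with y hy
      obtain ⟨h3, h4⟩ := trunc_bounds (a := ‖y.2 - x.2‖ / v) hy
      rw [Real.norm_of_nonneg h3]
      refine h4.trans ?_
      rw [abs_of_nonneg (by positivity), div_le_div_iff₀ hv (by positivity)]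
      nlinarith [norm_le_half (y.2 - x.2), norm_nonneg (y.2 - x.2)]
    rw [hν, integral_prod_symm _ hintx]
    have hle : ∀ s : AddCircle L, ∫ g, max (‖s - x.2‖ / v - g) 0 ∂expMeasure lam
        ≤ (lam / (2 * v ^ 2)) * ‖s - x.2‖ ^ 2 := by
      intro s
      refine (trunc_le hlam (a := ‖s - x.2‖ / v) (by positivity)).trans (le_of_eq ?_)
      field_simp
    calc ∫ s, ∫ g, max (‖s - x.2‖ / v - g) 0 ∂expMeasure lam ∂m
        ≤ ∫ s, (lam / (2 * v ^ 2)) * ‖s - x.2‖ ^ 2 ∂m := by
          refine integral_mono hintx.integral_prod_right ?_ hle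
          refine Integrable.const_mul ?_ _
          refine Integrable.of_bound (by fun_prop) ((L / 2) ^ 2) (ae_of_all _ fun s => ?_)
          rw [Real.norm_of_nonneg (by positivity)]
          gcongr
          exact norm_le_half _
      _ = lam * L ^ 2 / (24 * v ^ 2) := by
          rw [integral_const_mul, hm, integral_norm_sq]
          field_simp
          ring
  calc ∫ x, ∫ y, max (‖y.2 - x.2‖ / v - y.1) 0 ∂ν ∂ν
      ≤ ∫ _, lam * L ^ 2 / (24 * v ^ 2) ∂ν :=
        integral_mono hint.integral_prod_left (integrable_const _) hinner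
    _ = lam * L ^ 2 / (24 * v ^ 2) := by simp

/-- Under the two-point measure, the mean gain from an antipodal second seed. -/
lemma twoPoint_gain_ge {lam v : ℝ} (hlam : 0 < lam) (hv : 0 < v) :
    (1 - lam * (L / (2 * v))) * (lam * (L / (2 * v)) ^ 2 / 2) / 2 ≤
    ∫ ω, max (L / (2 * v) - (ω 1).1) 0 *
      (if (ω 1).2 = (ω 0).2 + ((L / 2 : ℝ) : AddCircle L) then 1 else 0)
      ∂seedLaw lam (twoPoint L) := by
  have hL0 : 0 < L := hL.out
  have := isProbabilityMeasure_expMeasure hlam
  set h : AddCircle L := ((L / 2 : ℝ) : AddCircle L) with hh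
  set a := L / (2 * v) with ha
  have ha0 : 0 ≤ a := by positivity
  set ν := (expMeasure lam).prod (twoPoint L) with hν
  have hset : MeasurableSet {z : (ℝ × AddCircle L) × (ℝ × AddCircle L) | z.2.2 = z.1.2 + h} :=
    measurableSet_eq_fun (by fun_prop) (by fun_prop)
  have hmeas : Measurable fun z : (ℝ × AddCircle L) × (ℝ × AddCircle L) =>
      max (a - z.2.1) 0 * (if z.2.2 = z.1.2 + h then 1 else 0) := by
    refine Measurable.mul (by fun_prop) ?_
    exact Measurable.ite hset measurable_const measurable_const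
  rw [integral_pair hlam (twoPoint L) (i := 0) (j := 1) (by norm_num)
    (f := fun z => max (a - z.2.1) 0 * (if z.2.2 = z.1.2 + h then 1 else 0)) hmeas]
  have hnn : ∀ᵐ y ∂ν, 0 ≤ y.1 := Measure.quasiMeasurePreserving_fst.ae (ae_nonneg_exp lam)
  have hint : Integrable (fun z : (ℝ × AddCircle L) × (ℝ × AddCircle L) =>
      max (a - z.2.1) 0 * (if z.2.2 = z.1.2 + h then 1 else 0)) (ν.prod ν) := by
    refine Integrable.of_bound hmeas.aestronglyMeasurable a ?_
    have h2 : ∀ᵐ z ∂(ν.prod ν), 0 ≤ z.2.1 := Measure.quasiMeasurePreserving_snd.ae hnn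
    filter_upwards [h2] with z hz
    obtain ⟨h3, h4⟩ := trunc_bounds (a := a) hz
    rw [abs_of_nonneg ha0] at h4
    split_ifs
    · rw [mul_one, Real.norm_of_nonneg h3]; exact h4
    · simpa using ha0
  rw [integral_prod _ hint]
  set c := ∫ x, max (a - x) 0 ∂expMeasure lam with hc
  have hc0 : 0 ≤ c := integral_nonneg fun x => le_max_right _ _
  have hcle := le_trunc hlam ha0
  rw [← hc] at hcle
  set F : AddCircle L → ℝ := fun s => ∫ s', (if s' = s + h then (1 : ℝ) else 0) ∂twoPoint L
    with hF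
  have hinner : ∀ x : ℝ × AddCircle L,
      ∫ y, max (a - y.1) 0 * (if y.2 = x.2 + h then (1 : ℝ) else 0) ∂ν = c * F x.2 := by
    intro x
    rw [hν, hc, hF]
    exact integral_prod_mul (μ := expMeasure lam) (ν := twoPoint L) (fun g => max (a - g) 0)
      (fun s' => if s' = x.2 + h then (1 : ℝ) else 0)
  have hstep : ∫ x, ∫ y, max (a - y.1) 0 * (if y.2 = x.2 + h then (1 : ℝ) else 0) ∂ν ∂ν
      = c * ∫ s, F s ∂twoPoint L := by
    simp_rw [hinner]
    rw [integral_const_mul, hν]
    congr 1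
    rw [integral_fun_snd F]
    simp
  have hdir : ∀ f : AddCircle L → ℝ, ∫ s, f s ∂twoPoint L
      = (1 / 2) * f ((0 : ℝ) : AddCircle L) + (1 / 2) * f h := by
    intro f
    have hfin : ∀ b : AddCircle L, Integrable f ((1 / 2 : ENNReal) • Measure.dirac b) := by
      intro b
      refine Integrable.smul_measure ?_ (by simp)
      exact integrable_dirac (by simp)
    unfold twoPoint
    rw [integral_add_measure (hfin _) (hfin _), integral_smul_measure, integral_smul_measure,
      integral_dirac, integral_dirac]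
    simp [hh]
  have hhh : h + h = ((0 : ℝ) : AddCircle L) := by
    rw [hh, ← AddCircle.coe_add]
    have : L / 2 + L / 2 = L := by ring
    rw [this, AddCircle.coe_period, AddCircle.coe_zero]
  have hFle : 1 / 2 ≤ ∫ s, F s ∂twoPoint L := by
    rw [hdir]
    have h1 : 1 / 2 ≤ F ((0 : ℝ) : AddCircle L) := by
      rw [hF]
      simp only
      rw [hdir]
      have e1 : h = ((0 : ℝ) : AddCircle L) + h := by simp
      rw [if_pos e1]
      split_ifs <;> norm_num
    have h2 : 1 / 2 ≤ F h := by
      rw [hF]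
      simp only
      rw [hdir, if_pos hhh.symm]
      split_ifs <;> norm_num
    linarith
  rw [hstep]
  calc (1 - lam * a) * (lam * a ^ 2 / 2) / 2 ≤ c * (1 / 2) := by linarith
    _ ≤ c * ∫ s, F s ∂twoPoint L := by gcongr

/-- The event that both the second and the third waiting time are at most `a`. -/
lemma both_small {S : Type*} [MeasurableSpace S] {lam : ℝ} (hlam : 0 < lam) (μ : Measure S)
    [IsProbabilityMeasure μ] {a : ℝ} (ha : 0 ≤ a) :
    (seedLaw lam μ).real {ω : ℕ → ℝ × S | (ω 1).1 ≤ a ∧ (ω 2).1 ≤ a} ≤ (lam * a) ^ 2 := by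
  have := isProbabilityMeasure_expMeasure hlam
  have hset : {ω : ℕ → ℝ × S | (ω 1).1 ≤ a ∧ (ω 2).1 ≤ a}
      = ((({1, 2} : Finset ℕ) : Set ℕ)).pi fun _ => Iic a ×ˢ (univ : Set S) := by
    ext ω
    simp
  rw [hset, measureReal_def]
  unfold seedLaw
  rw [Measure.infinitePi_pi _ (fun i _ => measurableSet_Iic.prod MeasurableSet.univ)]
  simp only [Measure.prod_prod, measure_univ, mul_one, Finset.prod_const]
  have hcard : ({1, 2} : Finset ℕ).card = 2 := by simp
  rw [hcard, ENNReal.toReal_pow]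
  have h := measureReal_Iic_exp_le hlam ha
  rw [measureReal_def] at h
  gcongr

lemma arrival_zero {S : Type*} (ω : ℕ → ℝ × S) : arrival ω 0 = (ω 0).1 := by simp [arrival]

lemma arrival_one {S : Type*} (ω : ℕ → ℝ × S) : arrival ω 1 = (ω 0).1 + (ω 1).1 := by
  simp [arrival, Finset.sum_range_succ]

lemma arrival_two {S : Type*} (ω : ℕ → ℝ × S) :
    arrival ω 2 = (ω 0).1 + (ω 1).1 + (ω 2).1 := by
  simp [arrival, Finset.sum_range_succ]

lemma isProbabilityMeasure_seedLaw {S : Type*} [MeasurableSpace S] {lam : ℝ} (hlam : 0 < lam)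
    (μ : Measure S) [IsProbabilityMeasure μ] : IsProbabilityMeasure (seedLaw lam μ) := by
  have := isProbabilityMeasure_expMeasure hlam
  unfold seedLaw
  infer_instance

lemma integrable_coverTime {lam v : ℝ} (hlam : 0 < lam) (hv : 0 < v)
    (μ : Measure (AddCircle L)) [IsProbabilityMeasure μ] :
    Integrable (fun ω => coverTime v (arrival ω) (fun i => (ω i).2)) (seedLaw lam μ) := by
  have := isProbabilityMeasure_seedLaw hlam μ
  refine Integrable.mono' (((integral_gap hlam μ 0).1).add (integrable_const (L / (2 * v))))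
    (aemeasurable_coverTime hlam hv μ).aestronglyMeasurable ?_
  filter_upwards [ae_gap_nonneg hlam μ] with ω h1
  have h0 : 0 ≤ arrival ω 0 := by rw [arrival_zero]; exact h1 0
  have h2 := arrival_le_coverTime hv (fun i => (ω i).2) h0 (arrival_mono h1)
  have h3 := coverTime_le hv (fun i => (ω i).2) h0
  rw [Real.norm_of_nonneg (h0.trans h2)]
  rw [arrival_zero] at h3
  exact h3

end integrals

/-- **Haar measure does not minimise the mean cover time.** On the circle of circumference `L`,
with seeds arriving at rate `lam` and growing at speed `v`, if `27 * lam * L < 2 * v` then seeds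
uniform on two antipodal points have a strictly smaller mean cover time than seeds with the
uniform (Haar) law. -/
theorem result (L lam v : ℝ) [hL : Fact (0 < L)] (hlam : 0 < lam) (hv : 0 < v)
    (h : 27 * (lam * L) < 2 * v) :
    Integrable (fun ω => coverTime v (arrival ω) (fun i => (ω i).2))
      (seedLaw lam (twoPoint L)) ∧
    Integrable (fun ω => coverTime v (arrival ω) (fun i => (ω i).2))
      (seedLaw lam (AddCircle.haarAddCircle (T := L))) ∧
    meanCoverTime lam v (twoPoint L) < meanCoverTime lam v (AddCircle.haarAddCircle (T := L)) := by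
  have hL0 : 0 < L := hL.out
  have hPμ := isProbabilityMeasure_seedLaw hlam (twoPoint L)
  have hPm := isProbabilityMeasure_seedLaw hlam (AddCircle.haarAddCircle (T := L))
  have hCμ := integrable_coverTime hlam hv (twoPoint L)
  have hCm := integrable_coverTime hlam hv (AddCircle.haarAddCircle (T := L))
  refine ⟨hCμ, hCm, ?_⟩
  set a := L / (2 * v) with ha
  have ha0 : 0 < a := by positivity
  set m1 := ∫ x, x ∂expMeasure lam with hm1
  -- upper bound for the two-point measure
  have hupper : meanCoverTime lam v (twoPoint L)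
      ≤ m1 + a - (1 - lam * a) * (lam * a ^ 2 / 2) / 2 / 2 := by
    have hgap := integral_gap hlam (twoPoint L) 0
    set φ : (ℕ → ℝ × AddCircle L) → ℝ := fun ω => max (a - (ω 1).1) 0 *
      (if (ω 1).2 = (ω 0).2 + ((L / 2 : ℝ) : AddCircle L) then 1 else 0) with hφ
    have hφm : Measurable φ := by
      refine Measurable.mul (by fun_prop) (Measurable.ite ?_ measurable_const measurable_const)
      exact measurableSet_eq_fun (by fun_prop) (by fun_prop)
    have hφi : Integrable φ (seedLaw lam (twoPoint L)) := by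
      refine Integrable.of_bound hφm.aestronglyMeasurable a ?_
      filter_upwards [ae_gap_nonneg hlam (twoPoint L)] with ω h1
      obtain ⟨h3, h4⟩ := trunc_bounds (a := a) (h1 1)
      rw [abs_of_nonneg ha0.le] at h4
      rw [hφ]
      simp only
      split_ifs
      · rw [mul_one, Real.norm_of_nonneg h3]; exact h4
      · simpa using ha0.le
    have hb : ∀ᵐ ω ∂seedLaw lam (twoPoint L),
        coverTime v (arrival ω) (fun i => (ω i).2) ≤ (ω 0).1 + a - φ ω / 2 := by
      filter_upwards [ae_gap_nonneg hlam (twoPoint L)] with ω h1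
      have h0 : 0 ≤ arrival ω 0 := by rw [arrival_zero]; exact h1 0
      rw [hφ]
      simp only
      split_ifs with hc
      · have h3 := coverTime_le_antipodal hv (fun i => (ω i).2) h0
          (by rw [arrival_zero, arrival_one]; linarith [h1 1]) hc
        rw [arrival_zero, arrival_one] at h3
        rw [mul_one]
        have e : (ω 0).1 + (ω 1).1 - (ω 0).1 = (ω 1).1 := by ring
        rwa [e] at h3
      · have h3 := coverTime_le hv (fun i => (ω i).2) h0
        rw [arrival_zero] at h3
        simpa using h3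
    calc meanCoverTime lam v (twoPoint L)
        ≤ ∫ ω, ((ω 0).1 + a - φ ω / 2) ∂seedLaw lam (twoPoint L) := by
          refine integral_mono_ae hCμ ?_ hb
          exact (hgap.1.add (integrable_const a)).sub (hφi.div_const 2)
      _ = m1 + a - (∫ ω, φ ω ∂seedLaw lam (twoPoint L)) / 2 := by
          have hI1 : Integrable (fun ω : ℕ → ℝ × AddCircle L => (ω 0).1 + a)
              (seedLaw lam (twoPoint L)) := hgap.1.add (integrable_const a)
          rw [integral_sub hI1 (hφi.div_const 2),
            integral_add hgap.1 (integrable_const a), hgap.2, integral_div 2 φ]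
          simp [hm1]
      _ ≤ m1 + a - (1 - lam * a) * (lam * a ^ 2 / 2) / 2 / 2 := by
          have := twoPoint_gain_ge (L := L) hlam hv
          rw [← ha] at this
          linarith
  -- lower bound for the Haar measure
  have hlower : m1 + a - (lam * L ^ 2 / (24 * v ^ 2)) / 2 - a * (lam * a) ^ 2
      ≤ meanCoverTime lam v (AddCircle.haarAddCircle (T := L)) := by
    set m := AddCircle.haarAddCircle (T := L) with hm
    have hgap := integral_gap hlam m 0
    set ψ : (ℕ → ℝ × AddCircle L) → ℝ := fun ω => max (‖(ω 1).2 - (ω 0).2‖ / v - (ω 1).1) 0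
      with hψ
    have hψm : Measurable ψ := by fun_prop
    have hψi : Integrable ψ (seedLaw lam m) := by
      refine Integrable.of_bound hψm.aestronglyMeasurable a ?_
      filter_upwards [ae_gap_nonneg hlam m] with ω h1
      obtain ⟨h3, h4⟩ := trunc_bounds (a := ‖(ω 1).2 - (ω 0).2‖ / v) (h1 1)
      rw [hψ, Real.norm_of_nonneg h3]
      refine h4.trans ?_
      rw [ha, abs_of_nonneg (by positivity), div_le_div_iff₀ hv (by positivity)]
      nlinarith [norm_le_half ((ω 1).2 - (ω 0).2), norm_nonneg ((ω 1).2 - (ω 0).2)]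
    set E : Set (ℕ → ℝ × AddCircle L) := {ω | (ω 1).1 ≤ a ∧ (ω 2).1 ≤ a} with hE
    have hEm : MeasurableSet E := by
      have h1 : MeasurableSet {ω : ℕ → ℝ × AddCircle L | (ω 1).1 ≤ a} :=
        measurableSet_le (by fun_prop) measurable_const
      have h2 : MeasurableSet {ω : ℕ → ℝ × AddCircle L | (ω 2).1 ≤ a} :=
        measurableSet_le (by fun_prop) measurable_const
      exact h1.inter h2
    have hEi : Integrable (E.indicator fun _ => a) (seedLaw lam m) :=
      (integrable_const a).indicator hEm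
    have hb : ∀ᵐ ω ∂seedLaw lam m, (ω 0).1 + a - ψ ω / 2 - E.indicator (fun _ => a) ω
        ≤ coverTime v (arrival ω) (fun i => (ω i).2) := by
      filter_upwards [ae_gap_nonneg hlam m] with ω h1
      have h0 : 0 ≤ arrival ω 0 := by rw [arrival_zero]; exact h1 0
      by_cases hc : ω ∈ E
      · rw [indicator_of_mem hc]
        have h3 := arrival_le_coverTime hv (fun i => (ω i).2) h0 (arrival_mono h1)
        rw [arrival_zero] at h3
        have h4 : 0 ≤ ψ ω := le_max_right _ _
        linarith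
      · rw [indicator_of_notMem hc, sub_zero]
        have hsum : a < arrival ω 2 - arrival ω 0 := by
          rw [arrival_two, arrival_zero]
          by_contra hcon
          push Not at hcon
          exact hc ⟨by linarith [h1 1, h1 2], by linarith [h1 1, h1 2]⟩
        have h3 := le_coverTime hv (fun i => (ω i).2) h0 (arrival_mono h1) hsum
        rw [arrival_zero, arrival_one] at h3
        have e : (ω 0).1 + (ω 1).1 - (ω 0).1 = (ω 1).1 := by ring
        rw [e] at h3
        exact h3
    have hEint : ∫ ω, E.indicator (fun _ => a) ω ∂seedLaw lam m ≤ a * (lam * a) ^ 2 := by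
      rw [integral_indicator_const _ hEm, smul_eq_mul, mul_comm]
      gcongr
      exact both_small hlam m ha0.le
    have hψint := haar_gain_le (L := L) hlam hv
    rw [← hm] at hψint
    calc m1 + a - (lam * L ^ 2 / (24 * v ^ 2)) / 2 - a * (lam * a) ^ 2
        ≤ m1 + a - (∫ ω, ψ ω ∂seedLaw lam m) / 2
          - ∫ ω, E.indicator (fun _ => a) ω ∂seedLaw lam m := by
          have : ∫ ω, ψ ω ∂seedLaw lam m ≤ lam * L ^ 2 / (24 * v ^ 2) := hψint
          linarith
      _ = ∫ ω, ((ω 0).1 + a - ψ ω / 2 - E.indicator (fun _ => a) ω) ∂seedLaw lam m := by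
          have hI1 : Integrable (fun ω : ℕ → ℝ × AddCircle L => (ω 0).1 + a)
              (seedLaw lam m) := hgap.1.add (integrable_const a)
          have hI2 : Integrable (fun ω : ℕ → ℝ × AddCircle L => (ω 0).1 + a - ψ ω / 2)
              (seedLaw lam m) := hI1.sub (hψi.div_const 2)
          rw [integral_sub hI2 hEi, integral_sub hI1 (hψi.div_const 2),
            integral_add hgap.1 (integrable_const a), hgap.2, integral_div 2 ψ]
          simp [hm1]
      _ ≤ meanCoverTime lam v m := by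
          refine integral_mono_ae ?_ hCm hb
          exact ((hgap.1.add (integrable_const a)).sub (hψi.div_const 2)).sub hEi
  refine hupper.trans_lt (lt_of_lt_of_le ?_ hlower)
  -- the final numerical comparison
  have hLa : lam * L ^ 2 / (24 * v ^ 2) = lam * a ^ 2 / 6 := by
    rw [ha]; field_simp; ring
  have hla : 27 * (lam * a) < 1 := by
    rw [ha]
    have : 27 * (lam * (L / (2 * v))) = 27 * (lam * L) / (2 * v) := by ring
    rw [this, div_lt_one (by positivity)]
    exact h
  rw [hLa]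
  have hx : 0 < lam * a := by positivity
  have key : 0 < lam * a ^ 2 * (1 / 24 - 9 / 8 * (lam * a)) := by
    have : 0 < 1 / 24 - 9 / 8 * (lam * a) := by linarith
    positivity
  nlinarith [key]

end Pool.Agent.Results.MP_b215e8_pr.CircleHaar
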